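import Pool.Agent.H11.KT.Targets

/-! Board elk_modules, row F_MO: irreducible modules. -/

set_option autoImplicit false

open scoped commutatorElement

namespace Pool.Agent.H24.KT

open Pool.Agent.H11.EL Pool.Agent.H11.KT

theorem pf_MO (hIM : F_IM) (hSB : F_SB) (hPM : F_PM) : F_MO := by
  intro G V _ _ _ _ hsol hirr hnt S hS
  set φ : G →* (AddMonoid.End V)ˣ := (DistribMulAction.toAddMonoidEnd G V).toHomUnits with hφ
  set ψ : G →* φ.range := φ.rangeRestrict with hψ
  have hψs : Function.Surjective ψ := φ.rangeRestrict_surjective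
  have hact : ∀ (g : G) (v : V), ψ g • v = g • v := fun _ _ => rfl
  have hfaith : FaithfulSMul φ.range V := inferInstance
  have hsol1 : Group.IsSolvable φ.range := Group.isSolvable_of_surjective hψs
  have hirr1 : Irr φ.range V := by
    refine ⟨hirr.1, ?_⟩
    intro U hU
    refine hirr.2 U ?_
    intro g v hv
    rw [← hact]
    exact hU (ψ g) v hv
  have hcl : Subgroup.closure ((ψ '' S) ∪ (commutator φ.range : Set φ.range)) = ⊤ := by
    rw [eq_top_iff]
    have h1 : Subgroup.map ψ (Subgroup.closure (S ∪ (commutator G : Set G))) = ⊤ := by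
      rw [hS, ← MonoidHom.range_eq_map, MonoidHom.range_eq_top]
      exact hψs
    rw [← h1, MonoidHom.map_closure]
    rw [Subgroup.closure_le]
    rintro _ ⟨x, hx, rfl⟩
    rcases hx with hx | hx
    · exact Subgroup.subset_closure (Or.inl ⟨x, hx, rfl⟩)
    · refine Subgroup.subset_closure (Or.inr ?_)
      have h2 : Subgroup.map ψ (commutator G) ≤ commutator φ.range := by
        rw [commutator_def, commutator_def, Subgroup.map_commutator]
        exact Subgroup.commutator_mono le_top le_top
      exact h2 ⟨x, hx, rfl⟩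
  have hfc : ∀ n : G, fc V (ψ n) = fc V n := fun _ => rfl
  have hgoal : ∃ n ∈ ψ '' S, fc V n ^ 4 ≤ Nat.card V ^ 3 := by
    rcases hSB φ.range V hirr1 with h | h
    · exact hIM φ.range V hsol1 hirr1 h (ψ '' S) hcl
    · have hnt1 : Nontrivial φ.range := by
        obtain ⟨g, v, hgv⟩ := hnt
        refine ⟨⟨ψ g, 1, ?_⟩⟩
        intro h1
        apply hgv
        rw [← hact, h1, one_smul]
      exact hPM φ.range V hsol1 hirr1 hnt1 h (ψ '' S) hcl
  obtain ⟨_, ⟨n, hn, rfl⟩, h⟩ := hgoal
  exact ⟨n, hn, h⟩

end Pool.Agent.H24.KT
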